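import Pool.Agent.SeqDil.CertB
import Pool.Agent.SeqDil.CertC
import Pool.Agent.SeqDil.CertD
import Pool.Agent.SeqDil.CertE
import Pool.Agent.SeqDil.CertF
import Pool.Agent.SeqDil.SegAsm

namespace Pool.Agent.Results.MP_4e32c3_nt.DilationLaws

open Pool.Agent.SeqDil

theorem good_of {a : ℕ → ℕ} (h1 : a 1 = 1) (he : ∀ n, 1 ≤ n → a (2 * n) = a n)
    (ho : ∀ n, 1 ≤ n → IsLeast {x : ℕ | 0 < x ∧ |(x : ℤ) - (a (2 * n - 1) : ℤ)| = (a n : ℤ)}
      (a (2 * n + 1))) : Good a := by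
  refine ⟨h1, he, fun n hn => ?_⟩
  obtain ⟨⟨hpos, habs⟩, hmin⟩ := ho n hn
  rcases Nat.lt_or_ge (a n) (a (2 * n - 1)) with h | h
  · rw [stp_gt h]
    have hle : a (2 * n + 1) ≤ a (2 * n - 1) - a n := by
      apply hmin
      refine ⟨by omega, ?_⟩
      rw [Nat.cast_sub h.le]
      have : ((a (2 * n - 1) : ℤ) - (a n : ℤ)) - (a (2 * n - 1) : ℤ) = -(a n : ℤ) := by ring
      rw [this, abs_neg, abs_of_nonneg (by positivity)]
    rcases abs_eq (by positivity : (0 : ℤ) ≤ (a n : ℤ)) |>.mp habs with h' | h'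
    · omega
    · omega
  · rw [stp_le h]
    rcases abs_eq (by positivity : (0 : ℤ) ≤ (a n : ℤ)) |>.mp habs with h' | h'
    · omega
    · omega

theorem prime_mult {a : ℕ → ℕ} (G : Good a) (q : ℕ) (hq : q.Prime) (h2 : q ≠ 2)
    (h100 : q < 100) : ∃ c, Law a c q := by
  interval_cases q <;>
    first
    | exact ⟨3, law_three G⟩
    | exact mult_5_1_1 G
    | exact mult_7_1_1 G
    | exact mult_11_1_5 G
    | exact mult_13_5_3 G
    | exact mult_17_11_7 G
    | exact mult_19_11_3 G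
    | exact mult_23_7_5 G
    | exact mult_29_11_5 G
    | exact mult_31_1_7 G
    | exact mult_37_11_3 G
    | exact mult_41_11_5 G
    | exact mult_43_23_3 G
    | exact mu_47 G
    | exact mu_53 G
    | exact mu_59 G
    | exact mu_61 G
    | exact mu_67 G
    | exact mu_71 G
    | exact mu_73 G
    | exact mu_79 G
    | exact mu_83 G
    | exact mu_89 G
    | exact mu_97 G
    | exact absurd rfl h2
    | (exfalso; revert hq; norm_num)

theorem smooth_mult {a : ℕ → ℕ} (G : Good a) (s : ℕ) : Odd s →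
    (∀ q : ℕ, q.Prime → q ∣ s → q < 100) → ∃ c, Law a c s := by
  induction s using induction_on_primes with
  | zero => intro h; exact absurd h (by decide)
  | one => intro _ _; exact ⟨0, fun k i _ _ => by rw [Nat.zero_mul, Nat.zero_add, Nat.one_mul]⟩
  | prime_mul p s hp ih =>
    intro hodd hq
    have hps := Nat.odd_mul.mp hodd
    obtain ⟨c, hc⟩ := prime_mult G p hp (by
      rintro rfl
      exact absurd hps.1 (by decide)) (hq p hp (dvd_mul_right p s))
    obtain ⟨d, hd⟩ := ih hps.2 (fun q hq' hd => hq q hq' (Dvd.dvd.mul_left hd p))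
    exact Law.comp hc hd

theorem closed_mult {a : ℕ → ℕ} {c s : ℕ} (hc : Law a c s) {m : ℕ}
    (h : ∃ n, 1 ≤ n ∧ a n = m) : ∃ n, 1 ≤ n ∧ a n = s * m := by
  obtain ⟨n, hn, rfl⟩ := h
  exact ⟨c * 2 ^ n + n, by omega, hc n n hn Nat.lt_two_pow_self⟩

theorem pow_two_value {a : ℕ → ℕ} (G : Good a) (k : ℕ) (hk : k < 18) :
    ∃ n, 1 ≤ n ∧ a n = 2 ^ k := by
  interval_cases k
  · exact ⟨1, le_refl 1, G.one⟩
  · exact ⟨3, by norm_num, a_three G⟩
  · exact pow_2 G
  · exact pow_3 G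
  · exact pow_4 G
  · exact pow_5 G
  · exact pow_6 G
  · exact pow_7 G
  · exact pow_8 G
  · exact pow_9 G
  · exact pow_10 G
  · exact pow_11 G
  · exact pow_12 G
  · exact pow_13 G
  · exact pow_14 G
  · exact pow_15 G
  · exact pow_16 G
  · exact pow_17 G

theorem small_dvd {q : ℕ} (h : q ∈ smallPrimes) : q.Prime ∧ q ≠ 2 ∧ q ≤ 43 := by
  unfold smallPrimes at h
  simp only [List.mem_cons, List.not_mem_nil, or_false] at h
  rcases h with rfl | rfl | rfl | rfl | rfl | rfl | rfl | rfl | rfl | rfl | rfl | rfl | rfl <;>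
    norm_num

theorem upto_1000 {a : ℕ → ℕ} (G : Good a) : ∀ r, 1 ≤ r → r ≤ 1000 → ∃ n, 1 ≤ n ∧ a n = r := by
  intro r
  induction r using Nat.strong_induction_on with
  | _ r ih =>
    intro h1 h2
    have hc := covAll_sound 1000 covAll_ok r h1 h2
    rw [cov, Bool.or_eq_true] at hc
    rcases hc with hc | hc
    · obtain ⟨q, hq, hb⟩ := List.any_eq_true.mp hc
      have hd : q ∣ r := Nat.dvd_of_mod_eq_zero (Nat.eq_of_beq_eq_true hb)
      obtain ⟨hp, hq2, hq43⟩ := small_dvd hq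
      obtain ⟨r', rfl⟩ := hd
      have hr' : 1 ≤ r' := by
        rcases Nat.eq_zero_or_pos r' with h | h
        · rw [h, Nat.mul_zero] at h1; omega
        · exact h
      have hlt : r' < q * r' := by
        have := Nat.mul_le_mul_right r' hp.two_le
        omega
      obtain ⟨c, hc⟩ := prime_mult G q hp hq2 (by omega)
      exact closed_mult hc (ih r' hlt hr' (by omega))
    · obtain ⟨x, hx, hb⟩ := List.any_eq_true.mp hc
      have hrx : r = x := Nat.eq_of_beq_eq_true hb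
      rw [hrx]
      exact allr_value G hx

theorem reduce {a : ℕ → ℕ} (G : Good a)
    (h : ∀ m : ℕ, 1 ≤ m → (∀ q : ℕ, q.Prime → q ∣ m → q = 2 ∨ 100 < q) → ∃ n, 1 ≤ n ∧ a n = m) :
    ∀ m : ℕ, 1 ≤ m → ∃ n, 1 ≤ n ∧ a n = m := by
  intro m
  induction m using Nat.strong_induction_on with
  | _ m ih =>
    intro h1
    by_cases hq : ∀ q : ℕ, q.Prime → q ∣ m → q = 2 ∨ 100 < q
    · exact h m h1 hq
    · push Not at hq
      obtain ⟨q, hp, ⟨r, rfl⟩, hq2, hq100⟩ := hq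
      have hne : q ≠ 100 := by
        rintro rfl
        exact absurd hp (by norm_num)
      have hr : 1 ≤ r := by
        rcases Nat.eq_zero_or_pos r with h' | h'
        · rw [h', Nat.mul_zero] at h1; omega
        · exact h'
      have hlt : r < q * r := by
        have := Nat.mul_le_mul_right r hp.two_le
        omega
      obtain ⟨c, hc⟩ := prime_mult G q hp hq2 (by omega)
      exact closed_mult hc (ih r hlt hr)

theorem T_sum (a : ℕ → ℕ) (C : ℕ) :
    ∀ i, T a C i = 2 + ∑ j ∈ Finset.range i, a (C - (j + 1))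
  | 0 => by simp [T]
  | i + 1 => by
    rw [Finset.sum_range_succ, ← Nat.add_assoc, ← T_sum a C i]; rfl

theorem criterion {a : ℕ → ℕ} (G : Good a) (t C : ℕ) (ht : 2 ^ t < C) (h3 : 3 ∣ C)
    (hQ : ∀ i, i < C - 2 ^ t →
      2 * a (C - (i + 1)) ≤ 2 + ∑ j ∈ Finset.range i, a (C - (j + 1)))
    (hin : ∀ k, a (2 ^ (t + k + 1) - 1) ≤
      2 + ∑ j ∈ Finset.range (C - 2 ^ t), a (C - (j + 1)) + (C - 2 ^ t) * (2 ^ k - 1)) :
    Law a C (a C + 1) := by
  refine lock G (A := T a C (C - 2 ^ t)) ht (Nat.mod_eq_zero_of_dvd h3) ?_ rfl ?_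
  · intro i hi
    rw [T_sum]; exact hQ i hi
  · intro k
    rw [T_sum, ← mm_eq G (k + 1 + t) (by omega)]
    have e : k + 1 + t = t + k + 1 := by ring
    rw [e]; exact hin k

/-- Let `a` be the sequence `a 1 = 1`, `a (2 n) = a n`, `a (2 n + 1)` the least positive `x` with
`|x - a (2 n - 1)| = a n`. (1) A criterion for a center `C`. (2) For every odd `s` without prime
factor above `100` there is a `c` with `a (c 2 ^ k + i) = s a i` for all `k` and `1 ≤ i < 2 ^ k`,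
so the set of values of `a` is closed under multiplication by `s`, and every `s r` with
`1 ≤ r ≤ 1000` or `r = 2 ^ e`, `e < 18`, is a value. (3) Every positive integer is a value as soon
as those without odd prime factor below `100` are. -/
theorem result (a : ℕ → ℕ) (h1 : a 1 = 1) (he : ∀ n, 1 ≤ n → a (2 * n) = a n)
    (ho : ∀ n, 1 ≤ n → IsLeast {x : ℕ | 0 < x ∧ |(x : ℤ) - (a (2 * n - 1) : ℤ)| = (a n : ℤ)}
      (a (2 * n + 1))) :
    (∀ t C : ℕ, 2 ^ t < C → 3 ∣ C →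
      (∀ i, i < C - 2 ^ t →
        2 * a (C - (i + 1)) ≤ 2 + ∑ j ∈ Finset.range i, a (C - (j + 1))) →
      (∀ k, a (2 ^ (t + k + 1) - 1) ≤
        2 + ∑ j ∈ Finset.range (C - 2 ^ t), a (C - (j + 1)) + (C - 2 ^ t) * (2 ^ k - 1)) →
      ∀ k i : ℕ, 1 ≤ i → i < 2 ^ k → a (C * 2 ^ k + i) = (a C + 1) * a i) ∧
    (∀ s : ℕ, Odd s → (∀ q : ℕ, q.Prime → q ∣ s → q < 100) →
      (∃ c : ℕ, ∀ k i : ℕ, 1 ≤ i → i < 2 ^ k → a (c * 2 ^ k + i) = s * a i) ∧
      (∀ m : ℕ, (∃ n, 1 ≤ n ∧ a n = m) → ∃ n, 1 ≤ n ∧ a n = s * m) ∧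
      ∀ r : ℕ, (1 ≤ r ∧ r ≤ 1000) ∨ (∃ e, e < 18 ∧ r = 2 ^ e) → ∃ n, 1 ≤ n ∧ a n = s * r) ∧
    ((∀ m : ℕ, 1 ≤ m → (∀ q : ℕ, q.Prime → q ∣ m → q = 2 ∨ 100 < q) → ∃ n, 1 ≤ n ∧ a n = m) →
      ∀ m : ℕ, 1 ≤ m → ∃ n, 1 ≤ n ∧ a n = m) := by
  have G := good_of h1 he ho
  refine ⟨fun t C ht h3 hQ hin => criterion G t C ht h3 hQ hin, fun s hs hp => ?_,
    fun h => reduce G h⟩
  obtain ⟨c, hc⟩ := smooth_mult G s hs hp
  refine ⟨⟨c, hc⟩, fun m h => closed_mult hc h, fun r hr => closed_mult hc ?_⟩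
  rcases hr with ⟨hr1, hr2⟩ | ⟨e, he', rfl⟩
  · exact upto_1000 G r hr1 hr2
  · exact pow_two_value G e he'

end Pool.Agent.Results.MP_4e32c3_nt.DilationLaws
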