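import Pool.Agent.SeqNear.Cert
import Pool.Agent.SeqNear.Mult

/-!
# Long runs of consecutive values around every power of three
-/

namespace Pool.Agent.Results.MP_4e32c3_nt.NearPowersOfThree

open Pool.Agent.SeqDil Pool.Agent.SeqNear

/-- Let `a` be the sequence `a 1 = 1`, `a (2 n) = a n`, `a (2 n + 1)` the least positive `x` with
`|x - a (2 n - 1)| = a n`. For every `j`, every positive integer in the interval
`[3 ^ j - 30, 3 ^ j + 52]` is a value of `a`, and so are all multiples of these integers by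
odd numbers without prime factor above `43`. -/
theorem result (a : ℕ → ℕ) (h1 : a 1 = 1) (he : ∀ n, 1 ≤ n → a (2 * n) = a n)
    (ho : ∀ n, 1 ≤ n → IsLeast {x : ℕ | 0 < x ∧ |(x : ℤ) - (a (2 * n - 1) : ℤ)| = (a n : ℤ)}
      (a (2 * n + 1))) :
    ∀ j r : ℕ, 1 ≤ r → 3 ^ j ≤ r + 30 → r ≤ 3 ^ j + 52 →
      ∀ s : ℕ, Odd s → (∀ q : ℕ, q.Prime → q ∣ s → q ≤ 43) → ∃ n, 1 ≤ n ∧ a n = s * r := by
  have G := good_of h1 he ho
  intro j r hr hr1 hr2 s hs hp
  obtain ⟨c, hc⟩ := smooth_mult G s hs hp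
  refine closed_mult hc ?_
  rcases Nat.lt_or_ge j 6 with hj | hj
  · have h3 : 3 ^ j ≤ 3 ^ 5 := Nat.pow_le_pow_right (by norm_num) (by omega)
    have h4 : (3 : ℕ) ^ 5 = 243 := by norm_num
    exact upto_1000 G r hr (by omega)
  · have h5 : ((3 ^ j : ℕ) : ℤ) = 3 ^ j := by push_cast; ring
    obtain ⟨n, hn, h⟩ := near G j hj ((r : ℤ) - 3 ^ j) (by omega) (by omega)
    refine ⟨n, hn, ?_⟩
    have : (a n : ℤ) = (r : ℤ) := by rw [h]; ring
    exact_mod_cast this

end Pool.Agent.Results.MP_4e32c3_nt.NearPowersOfThree
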