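import Pool.Agent.SeqAdd.Table
import Pool.Agent.SeqNear.Mult
import Pool.Agent.HalfDiff.Core

/-!
# Values next to the powers of two, and odd values next to the numbers `2 * 3 ^ j`
-/

namespace Pool.Agent.Results.MP_4e32c3_nt.NearTwicePowers

open Pool.Agent.SeqDil Pool.Agent.SeqAdd

/-- the terms next to the powers of two (from `DyadicEnds`) -/
theorem dyadic (a : ℕ → ℕ) (ha : Pool.Agent.HalfDiff.IsHalfDiff a) (j : ℕ) :
    a (2 ^ (2 * j + 1) - 1) = 3 ^ j ∧ a (2 ^ (2 * j + 2) - 1) = 2 * 3 ^ j ∧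
    a (2 ^ (2 * j + 2) + 1) = 2 * 3 ^ j - 1 ∧ a (2 ^ (2 * j + 3) + 1) = 3 ^ (j + 1) - 1 ∧
    a (3 * 2 ^ j - 1) = 1 := by
  have h := Pool.Agent.HalfDiff.rec_of_isHalfDiff ha
  have e1 := Pool.Agent.HalfDiff.end_values h j
  have e2 := Pool.Agent.HalfDiff.end_values h (j + 1)
  have hp : 1 ≤ 3 ^ j := Nat.one_le_pow _ _ (by norm_num)
  refine ⟨e1.1, e1.2, ?_, ?_, Pool.Agent.HalfDiff.three_end h j⟩
  · have := Pool.Agent.HalfDiff.start_value h (2 * j + 1) (by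
      rw [show 2 * j + 1 + 1 = 2 * j + 2 by ring, e1.2]; omega)
    rw [show 2 * j + 1 + 1 = 2 * j + 2 by ring, e1.2] at this
    exact this
  · have e3 : a (2 ^ (2 * j + 3) - 1) = 3 ^ (j + 1) := by
      have := e2.1
      rwa [show 2 * (j + 1) + 1 = 2 * j + 3 by ring] at this
    have := Pool.Agent.HalfDiff.start_value h (2 * j + 2) (by
      rw [show 2 * j + 2 + 1 = 2 * j + 3 by ring, e3, pow_succ]; omega)
    rw [show 2 * j + 2 + 1 = 2 * j + 3 by ring, e3] at this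
    exact this

/-- Let `a` be the sequence `a 1 = 1`, `a (2 n) = a n`, `a (2 n + 1)` the least positive `x` with
`|x - a (2 n - 1)| = a n`. (1) The terms next to the powers of two and before `3 * 2 ^ j`.
(2) For every `j`, every odd positive integer in `[2 * 3 ^ j - 36, 2 * 3 ^ j + 30]` is a value
of `a`, and so are all multiples of these integers by odd numbers without prime factor
above `43`. -/
theorem result (a : ℕ → ℕ) (h1 : a 1 = 1) (he : ∀ n, 1 ≤ n → a (2 * n) = a n)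
    (ho : ∀ n, 1 ≤ n → IsLeast {x : ℕ | 0 < x ∧ |(x : ℤ) - (a (2 * n - 1) : ℤ)| = (a n : ℤ)}
      (a (2 * n + 1))) :
    (∀ j : ℕ, a (2 ^ (2 * j + 1) - 1) = 3 ^ j ∧ a (2 ^ (2 * j + 2) - 1) = 2 * 3 ^ j ∧
      a (2 ^ (2 * j + 2) + 1) = 2 * 3 ^ j - 1 ∧ a (2 ^ (2 * j + 3) + 1) = 3 ^ (j + 1) - 1 ∧
      a (3 * 2 ^ j - 1) = 1) ∧
    ∀ j r : ℕ, Odd r → 2 * 3 ^ j ≤ r + 36 → r ≤ 2 * 3 ^ j + 30 →
      ∀ s : ℕ, Odd s → (∀ q : ℕ, q.Prime → q ∣ s → q ≤ 43) → ∃ n, 1 ≤ n ∧ a n = s * r := by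
  have G := Pool.Agent.SeqNear.good_of h1 he ho
  refine ⟨fun j => dyadic a ⟨h1, he, ho⟩ j, ?_⟩
  intro j r hr hr1 hr2 s hs hp
  obtain ⟨c, hc⟩ := Pool.Agent.SeqNear.smooth_mult G s hs hp
  refine Pool.Agent.SeqNear.closed_mult hc ?_
  rcases Nat.lt_or_ge j 4 with hj | hj
  · have h3 : 3 ^ j ≤ 3 ^ 3 := Nat.pow_le_pow_right (by norm_num) (by omega)
    have h4 : (3 : ℕ) ^ 3 = 27 := by norm_num
    exact Pool.Agent.SeqNear.upto_1000 G r hr.pos (by omega)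
  · have h5 : ((3 ^ j : ℕ) : ℤ) = 3 ^ j := by push_cast; ring
    have hodd : Odd ((r : ℤ) - 2 * 3 ^ j) := by
      obtain ⟨k, hk⟩ := hr
      refine ⟨(k : ℤ) - 3 ^ j, ?_⟩
      rw [hk]; push_cast; ring
    obtain ⟨w, hw⟩ := hodd
    obtain ⟨n, hn, h⟩ := near_two G j hj ((r : ℤ) - 2 * 3 ^ j) (by rw [← h5] at hw ⊢; omega)
      (by rw [← h5] at hw ⊢; omega) ⟨w, hw⟩
    refine ⟨n, hn, ?_⟩
    have h6 : (a n : ℤ) = r := by rw [h]; ring
    exact_mod_cast h6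

end Pool.Agent.Results.MP_4e32c3_nt.NearTwicePowers
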