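import Pool.Agent.HalfDiff.Dil
import Pool.Agent.HalfDiff.Far
import Pool.Agent.HalfDiff.Gaps
import Pool.Agent.HalfDiff.Units

/-!
# The sequence meets every residue class modulo every number with prime factors at most `13`
-/

namespace Pool.Agent.Results.MP_4e32c3_nt.SmoothModuli

open Pool.Agent.HalfDiff

theorem le13 {q : ℕ} (hq : q.Prime) (hd : q ∣ 60060) : q ≤ 13 := by
  have e : (60060 : ℕ) = 2 * 2 * 3 * 5 * 7 * 11 * 13 := by norm_num
  rw [e] at hd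
  have l : ∀ p : ℕ, 0 < p → p ≤ 13 → q ∣ p → q ≤ 13 := fun p hp h hd =>
    (Nat.le_of_dvd hp hd).trans h
  simp only [Nat.Prime.dvd_mul hq] at hd
  rcases hd with (((((hd | hd) | hd) | hd) | hd) | hd) | hd
  · exact l 2 (by norm_num) (by norm_num) hd
  · exact l 2 (by norm_num) (by norm_num) hd
  · exact l 3 (by norm_num) (by norm_num) hd
  · exact l 5 (by norm_num) (by norm_num) hd
  · exact l 7 (by norm_num) (by norm_num) hd
  · exact l 11 (by norm_num) (by norm_num) hd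
  · exact l 13 (by norm_num) (by norm_num) hd

section

variable {a : ℕ → ℕ} (h1 : a 1 = 1) (he : ∀ n, 1 ≤ n → a (2 * n) = a n)
  (ho : ∀ n, 1 ≤ n → IsLeast {x : ℕ | 0 < x ∧ |(x : ℤ) - (a (2 * n - 1) : ℤ)| = (a n : ℤ)}
    (a (2 * n + 1)))

include h1 he ho

theorem rec_a : Rec a := rec_of_isHalfDiff ⟨h1, he, ho⟩

/-- For every `e` there is a term that is `2 ^ e` times a number coprime to `30030`. -/
theorem two_part (e : ℕ) : ∃ o, Nat.Coprime o 30030 ∧ ∃ n, 1 ≤ n ∧ a n = 2 ^ e * o := by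
  rcases Nat.lt_or_ge e 3 with h | h
  · refine ⟨1, by norm_num, ?_⟩
    obtain ⟨n, hn, hv⟩ := ((Dil.result a h1 he ho).1 1 odd_one (fun q hq hd =>
      absurd (Nat.dvd_one.mp hd) hq.one_lt.ne')).2.2 (2 ^ e) (Or.inr ⟨e, by omega, rfl⟩)
    exact ⟨n, hn, by rw [hv, one_mul, mul_one]⟩
  · obtain ⟨k, rfl⟩ : ∃ k, e = k + 3 := ⟨e - 3, by omega⟩
    obtain ⟨j, hj, o, hjo, hodd⟩ := five_val 1 k
    refine ⟨o, five_coprime j hjo hodd, 2 ^ (2 * (2 * j + 1) + 7) + 37,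
      (by norm_num : 1 ≤ 37).trans (Nat.le_add_left _ _), ?_⟩
    rw [far_value (rec_a h1 he ho) (2 * j + 1) (by omega), hjo]

theorem residue (m : ℕ) (hm : 1 ≤ m) (hP : ∀ q : ℕ, q.Prime → q ∣ m → q ≤ 13) (r : ℕ) :
    ∃ n, 1 ≤ n ∧ a n ≡ r [MOD m] := by
  obtain ⟨w, e, R, hR, hw, hRc⟩ := split (r + m) (by omega)
  obtain ⟨o, hoc, hterm⟩ := two_part h1 he ho e
  have hP' : ∀ q : ℕ, q.Prime → q ∣ 60060 * m → q ≤ 13 := by
    intro q hq hd
    rcases (Nat.Prime.dvd_mul hq).mp hd with h | h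
    · exact le13 hq h
    · exact hP q hq h
  have oM := cop_of hoc hP'
  have RM := cop_of hRc hP'
  obtain ⟨u, -, hu⟩ := Nat.exists_mul_mod_eq_one_of_coprime oM (by omega)
  have hu' : o * u ≡ 1 [MOD 60060 * m] := by
    rw [Nat.ModEq, hu, Nat.mod_eq_of_lt (by omega)]
  have uM : Nat.Coprime u (60060 * m) := by
    have h := hu'.gcd_eq
    rw [Nat.gcd_one_left] at h
    exact Nat.Coprime.coprime_mul_left (h : Nat.Coprime (o * u) (60060 * m))
  obtain ⟨s, hs, hsx⟩ := units_all m hm hP (u * R) (uM.mul_left RM)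
  have key : s * o ≡ R [MOD 60060 * m] := by
    refine (hsx.mul_right o).trans ?_
    have h := hu'.mul_right R
    rw [one_mul] at h
    rwa [show u * R * o = o * u * R by ring]
  obtain ⟨n, hn, hv⟩ := ((Dil.result a h1 he ho).1 (w * s)
    (hw.1.mul (G_prime hs).1) (fun q hq hd => by
      rcases (Nat.Prime.dvd_mul hq).mp hd with h | h
      · exact hw.2 q hq h
      · exact (G_prime hs).2 q hq h)).2.1 (2 ^ e * o) hterm
  refine ⟨n, hn, ?_⟩
  have h2 : w * s * (2 ^ e * o) ≡ r + m [MOD m] := by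
    rw [hR, show w * s * (2 ^ e * o) = w * 2 ^ e * (s * o) by ring,
      show w * (2 ^ e * R) = w * 2 ^ e * R by ring]
    exact (key.of_dvd (dvd_mul_left m 60060)).mul_left (w * 2 ^ e)
  rw [hv]
  exact h2.trans (by simp [Nat.ModEq])

end

/-- Let `a` be the sequence `a 1 = 1`, `a (2 n) = a n`, `a (2 n + 1)` the least positive `x` with
`|x - a (2 n - 1)| = a n`. If all prime factors of `m ≥ 1` are at most `13`, then for every
residue `r` and every `ε > 0`, all intervals `[x, (1 + ε) x]` with `x` large contain a value of `a`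
that is congruent to `r` modulo `m`. -/
theorem result (a : ℕ → ℕ) (h1 : a 1 = 1) (he : ∀ n, 1 ≤ n → a (2 * n) = a n)
    (ho : ∀ n, 1 ≤ n → IsLeast {x : ℕ | 0 < x ∧ |(x : ℤ) - (a (2 * n - 1) : ℤ)| = (a n : ℤ)}
      (a (2 * n + 1))) :
    ∀ m : ℕ, 1 ≤ m → (∀ q : ℕ, q.Prime → q ∣ m → q ≤ 13) →
      ∀ r : ℕ, ∀ ε : ℝ, 0 < ε → ∃ X : ℝ, ∀ x : ℝ, X ≤ x →
        ∃ n, 1 ≤ n ∧ x ≤ a n ∧ (a n : ℝ) ≤ (1 + ε) * x ∧ a n ≡ r [MOD m] := by
  intro m hm hP r ε hε
  obtain ⟨n0, hn0, hv0⟩ := residue h1 he ho m hm hP r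
  have hpos : 1 ≤ a n0 := (rec_a h1 he ho).pos n0 hn0
  have hL : 0 < m.totient := Nat.totient_pos.mpr hm
  have e17 : 17 ^ m.totient ≡ 1 [MOD m] :=
    Nat.ModEq.pow_totient (cop_of (by norm_num) hP)
  have e19 : 19 ^ m.totient ≡ 1 [MOD m] :=
    Nat.ModEq.pow_totient (cop_of (by norm_num) hP)
  obtain ⟨X, hX0, hX⟩ := gap_mul (α := 17 ^ m.totient) (β := 19 ^ m.totient)
    (Nat.one_lt_pow hL.ne' (by norm_num)) (Nat.one_lt_pow hL.ne' (by norm_num)) (by
      intro i j hij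
      by_contra hi
      have h17 : 17 ∣ (17 ^ m.totient) ^ i := by
        rw [← pow_mul]
        exact dvd_pow_self 17 (Nat.mul_ne_zero hL.ne' hi)
      rw [hij, ← pow_mul] at h17
      have := (by norm_num : Nat.Prime 17).dvd_of_dvd_pow h17
      exact absurd this (by norm_num)) hε
  refine ⟨X * a n0, fun x hx => ?_⟩
  have hp0 : (0 : ℝ) < a n0 := by exact_mod_cast hpos
  obtain ⟨i, j, hs1, hs2⟩ := hX (x / a n0) ((le_div_iff₀ hp0).mpr hx)
  have hG : (17 ^ m.totient) ^ i * (19 ^ m.totient) ^ j ∈ G :=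
    mul_mem (pow_mem (pow_mem (G_gen (by simp)) _) _) (pow_mem (pow_mem (G_gen (by simp)) _) _)
  have hs : (17 ^ m.totient) ^ i * (19 ^ m.totient) ^ j ≡ 1 [MOD m] := by
    have := (e17.pow i).mul (e19.pow j)
    simpa using this
  generalize (17 ^ m.totient) ^ i * (19 ^ m.totient) ^ j = s at *
  obtain ⟨n, hn, hv⟩ := ((Dil.result a h1 he ho).1 s (G_prime hG).1
    (G_prime hG).2).2.1 (a n0) ⟨n0, hn0, rfl⟩
  have hvr : (a n : ℝ) = s * a n0 := by rw [hv]; push_cast; ring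
  refine ⟨n, hn, ?_, ?_, ?_⟩
  · rw [hvr]; exact (div_le_iff₀ hp0).mp hs1
  · rw [hvr]
    have := mul_le_mul_of_nonneg_right hs2 hp0.le
    rwa [mul_assoc, div_mul_cancel₀ _ hp0.ne'] at this
  · rw [hv]
    have := hs.mul_right (a n0)
    rw [one_mul] at this
    exact this.trans hv0

end Pool.Agent.Results.MP_4e32c3_nt.SmoothModuli
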